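import Pool.Agent.Work.MP_64ea0f_cs.InterfaceG4

set_option autoImplicit false

/-! Block CSY -/

namespace Pool.CS

theorem csy_thm : Stmt_TORG → Stmt_INFY → Stmt_CSY := by
  intro hT hI D x y hxy
  by_cases hx : ∃ n : ℕ, 0 < n ∧ x ^ n = 1
  · exact hT.2 D x y hx hxy
  · exact hI D x y hx hxy

end Pool.CS
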